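import Pool.Agent.P.MP_406085_lc.CompZ

/-!
Integer polynomials as lists of terms, with a zero test.
-/

namespace Pool.Agent.P.MP_406085_lc.Eff

open MvPolynomial Pool.Agent.Lib.Helper43

/-- Lists of terms (coefficient, list of variables). -/
abbrev PL := List (ℤ × List ℕ)

/-- The exponent vector of a list of variables. -/
noncomputable def mon (m : List ℕ) : ℕ →₀ ℕ := (m.map fun v => Finsupp.single v 1).sum

/-- The polynomial given by a list of terms. -/
noncomputable def ev (l : PL) : MvPolynomial ℕ ℤ := (l.map fun t => monomial (mon t.2) t.1).sum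

def pmul (a b : PL) : PL := a.flatMap fun s => b.map fun t => (s.1 * t.1, s.2 ++ t.2)

def pneg (a : PL) : PL := a.map fun t => (-t.1, t.2)

def cnt (v : ℕ) (a : List ℕ) : ℕ := (a.filter fun x => x == v).length

def same (a b : List ℕ) : Bool := (a ++ b).all fun v => cnt v a == cnt v b

def pz (l : PL) : Bool :=
  l.all fun t => decide (((l.filter fun t' => same t.2 t'.2).map fun t' => t'.1).sum = 0)

theorem mon_append (a b : List ℕ) : mon (a ++ b) = mon a + mon b := by simp [mon]

theorem mon_apply (a : List ℕ) (v : ℕ) : mon a v = cnt v a := by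
  induction a with
  | nil => simp [mon, cnt]
  | cons x a ih =>
    have : mon (x :: a) = Finsupp.single x 1 + mon a := by simp [mon]
    rw [this, Finsupp.add_apply, ih, Finsupp.single_apply]
    by_cases h : x = v <;> simp [cnt, h, add_comm]

theorem same_iff (a b : List ℕ) : same a b = true ↔ mon a = mon b := by
  simp only [same, List.all_eq_true, beq_iff_eq, Finsupp.ext_iff, mon_apply]
  refine ⟨fun h v => ?_, fun h v _ => h v⟩
  by_cases hv : v ∈ a ++ b
  · exact h v hv
  · have key : ∀ c : List ℕ, v ∉ c → cnt v c = 0 := fun c hc => by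
      rw [cnt, List.length_eq_zero_iff, List.filter_eq_nil_iff]
      intro x hx hxv
      exact hc (beq_iff_eq.1 hxv ▸ hx)
    rw [List.mem_append, not_or] at hv
    rw [key a hv.1, key b hv.2]

theorem ev_nil : ev [] = 0 := rfl

theorem ev_cons (t : ℤ × List ℕ) (l : PL) : ev (t :: l) = monomial (mon t.2) t.1 + ev l := by
  simp [ev]

theorem ev_append (a b : PL) : ev (a ++ b) = ev a + ev b := by simp [ev]

theorem ev_pneg (a : PL) : ev (pneg a) = -ev a := by
  induction a with
  | nil => simp [pneg, ev]
  | cons t a ih =>
    have : pneg (t :: a) = (-t.1, t.2) :: pneg a := rfl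
    rw [this, ev_cons, ev_cons, ih, map_neg]
    ring

theorem ev_pmul (a b : PL) : ev (pmul a b) = ev a * ev b := by
  induction a with
  | nil => simp [pmul, ev]
  | cons s a ih =>
    have : pmul (s :: a) b = (b.map fun t => (s.1 * t.1, s.2 ++ t.2)) ++ pmul a b := rfl
    rw [this, ev_append, ih, ev_cons, add_mul]
    congr 1
    induction b with
    | nil => simp [ev]
    | cons t b ihb =>
      clear ihb
      induction (t :: b) with
      | nil => simp [ev]
      | cons t b ihb => rw [List.map_cons, ev_cons, ev_cons, mul_add, ihb, monomial_mul, mon_append]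

theorem ev_flatMap {ι : Type} (l : List ι) (f : ι → PL) :
    ev (l.flatMap f) = (l.map fun i => ev (f i)).sum := by
  induction l with
  | nil => rfl
  | cons i l ih => rw [List.flatMap_cons, ev_append, ih, List.map_cons, List.sum_cons]

theorem ev_var (v : ℕ) : ev [(1, [v])] = X v := by
  simp [ev, mon, X]

theorem ev_surj (P : MvPolynomial ℕ ℤ) : ∃ l, ev l = P := by
  induction P using MvPolynomial.induction_on with
  | C a => exact ⟨[(a, [])], by simp [ev, mon]⟩
  | add p q hp hq =>
    obtain ⟨a, rfl⟩ := hp
    obtain ⟨b, rfl⟩ := hq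
    exact ⟨a ++ b, ev_append a b⟩
  | mul_X p v hp =>
    obtain ⟨a, rfl⟩ := hp
    exact ⟨pmul a [(1, [v])], by rw [ev_pmul, ev_var]⟩

theorem coeff_ev (l : PL) (m : List ℕ) :
    coeff (mon m) (ev l) = ((l.filter fun t' => same m t'.2).map fun t' => t'.1).sum := by
  classical
  induction l with
  | nil => simp [ev]
  | cons t l ih =>
    rw [ev_cons, coeff_add, ih, coeff_monomial, List.filter_cons]
    by_cases h : same m t.2 = true
    · rw [if_pos h, if_pos ((same_iff _ _).1 h).symm]
      simp
    · rw [if_neg h, if_neg fun hc => h ((same_iff _ _).2 hc.symm), zero_add]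

theorem pz_iff (l : PL) : pz l = true ↔ ev l = 0 := by
  classical
  simp only [pz, List.all_eq_true, decide_eq_true_eq, ← coeff_ev]
  refine ⟨fun h => MvPolynomial.ext _ _ fun d => ?_, fun h t _ => by simp [h]⟩
  by_cases hd : ∃ t ∈ l, mon t.2 = d
  · obtain ⟨t, ht, rfl⟩ := hd
    exact h t ht
  · clear h
    induction l with
    | nil => rfl
    | cons t l ih =>
      rw [ev_cons, coeff_add, ih fun ⟨s, hs, e⟩ => hd ⟨s, List.mem_cons_of_mem _ hs, e⟩,
        coeff_monomial, if_neg fun e => hd ⟨t, List.mem_cons_self, e⟩, zero_add]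

variable {α : Type} [Primcodable α]

theorem cp_pmul0 : Computable fun x : PL × PL => pmul x.1 x.2 := by
  unfold pmul
  fun_prop

theorem cp_pneg0 : Computable pneg := by
  unfold pneg
  fun_prop

theorem cp_same0 : Computable fun x : List ℕ × List ℕ => same x.1 x.2 := by
  unfold same cnt
  fun_prop

attribute [local irreducible] pmul pneg same

@[fun_prop] theorem cp_pmul {a b : α → PL} (ha : Computable a) (hb : Computable b) :
    Computable fun x => pmul (a x) (b x) :=
  Computable.comp (g := fun x => (a x, b x)) cp_pmul0 (ha.pair hb)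

@[fun_prop] theorem cp_pneg {a : α → PL} (ha : Computable a) : Computable fun x => pneg (a x) :=
  cp_pneg0.comp ha

@[fun_prop] theorem cp_same {a b : α → List ℕ} (ha : Computable a) (hb : Computable b) :
    Computable fun x => same (a x) (b x) :=
  Computable.comp (g := fun x => (a x, b x)) cp_same0 (ha.pair hb)

theorem cp_pz0 : Computable pz := by
  unfold pz
  refine CFP.all (CFP.decEq (CZ.zsum (CFP.map (by fun_prop) (CFP.filter ?_ (by fun_prop))))
    (CFP.const _)) CFP.id
  exact cp_same (by fun_prop) (by fun_prop)

end Pool.Agent.P.MP_406085_lc.Eff
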