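import Pool.Agent.Lib.Helper43.CompFP

/-!
Semidecidable predicates.
-/

namespace Pool.Agent.P.MP_406085_lc.Eff

open Pool.Agent.Lib.Helper43

variable {α β : Type} [Primcodable α] [Primcodable β] {P Q : α → Prop}

/-- Predicates that are found by an unbounded search. -/
def Sig (P : α → Prop) : Prop :=
  ∃ B : α × ℕ → Bool, Computable B ∧ ∀ a, P a ↔ ∃ n, B (a, n) = true

theorem Sig.congr (h : Sig P) (e : ∀ a, Q a ↔ P a) : Sig Q := by
  obtain ⟨B, hB, h⟩ := h
  exact ⟨B, hB, fun a => (e a).trans (h a)⟩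

theorem sig_bool {B : α → Bool} (hB : Computable B) : Sig fun a => B a = true :=
  ⟨fun x => B x.1, hB.comp Computable.fst, fun _ => by simp⟩

theorem sig_dec {i : ∀ a, Decidable (P a)} (h : Computable fun a => @decide (P a) (i a)) : Sig P :=
  (sig_bool h).congr fun _ => by simp

theorem Sig.comp {f : β → α} (h : Sig P) (hf : Computable f) : Sig fun b => P (f b) := by
  obtain ⟨B, hB, h⟩ := h
  exact ⟨fun x => B (f x.1, x.2), hB.comp ((hf.comp Computable.fst).pair Computable.snd),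
    fun b => h (f b)⟩

theorem Sig.or (h : Sig P) (h' : Sig Q) : Sig fun a => P a ∨ Q a := by
  obtain ⟨B, hB, h⟩ := h
  obtain ⟨B', hB', h'⟩ := h'
  exact ⟨fun x => B x || B' x, CFP.or hB hB', fun a => by simp [h, h', exists_or]⟩

theorem Sig.and (h : Sig P) (h' : Sig Q) : Sig fun a => P a ∧ Q a := by
  obtain ⟨B, hB, h⟩ := h
  obtain ⟨B', hB', h'⟩ := h'
  refine ⟨fun x => B (x.1, x.2.unpair.1) && B' (x.1, x.2.unpair.2),
    CFP.and (hB.comp (by fun_prop)) (hB'.comp (by fun_prop)), fun a => ?_⟩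
  simp only [h, h']
  constructor
  · rintro ⟨⟨n, hn⟩, m, hm⟩
    exact ⟨Nat.pair n m, by simp [hn, hm]⟩
  · rintro ⟨n, hn⟩
    rw [Bool.and_eq_true] at hn
    exact ⟨⟨_, hn.1⟩, _, hn.2⟩

/-- The search through codes of pairs (value, witness). -/
def srch (B : (α × β) × ℕ → Bool) (x : α × ℕ) : Bool :=
  ((Encodable.decode (α := β) x.2.unpair.1).map fun b => B ((x.1, b), x.2.unpair.2)).getD false

theorem cp_srch {B : (α × β) × ℕ → Bool} (hB : Computable B) : Computable (srch B) :=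
  CFP.optGetD (CFP.optMap (g := fun (x : α × ℕ) (b : β) => B ((x.1, b), x.2.unpair.2))
    (Computable.decode.comp (by fun_prop)) (hB.comp (by fun_prop))) (CFP.const _)

omit [Primcodable α] in
theorem srch_iff {B : (α × β) × ℕ → Bool} {a : α} {n : ℕ} : srch B (a, n) = true ↔
    ∃ b, Encodable.decode n.unpair.1 = some b ∧ B ((a, b), n.unpair.2) = true := by
  unfold srch
  cases h : Encodable.decode (α := β) n.unpair.1 <;> simp

theorem Sig.ex {R : α × β → Prop} (h : Sig R) : Sig fun a => ∃ b, R (a, b) := by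
  obtain ⟨B, hB, h⟩ := h
  refine ⟨srch B, cp_srch hB, fun a => ⟨?_, ?_⟩⟩
  · rintro ⟨b, hb⟩
    obtain ⟨n, hn⟩ := (h _).1 hb
    exact ⟨Nat.pair (Encodable.encode b) n, srch_iff.2 ⟨b, by simp, by simpa using hn⟩⟩
  · rintro ⟨n, hn⟩
    obtain ⟨b, -, hb⟩ := srch_iff.1 hn
    exact ⟨b, (h _).2 ⟨_, hb⟩⟩

theorem Sig.ball {R : α × ℕ → Prop} (h : Sig R) {M : α → ℕ} (hM : Computable M) :
    Sig fun a => ∀ i < M a, R (a, i) := by
  obtain ⟨B, hB, h⟩ := h
  refine ⟨fun x => (List.range (M x.1)).all fun i => (List.range x.2).any fun n => B ((x.1, i), n),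
    CFP.all (CFP.any (g := fun (y : (α × ℕ) × ℕ) n => B ((y.1.1, y.2), n)) (hB.comp (by fun_prop))
      (by fun_prop)) (CFP.range (hM.comp Computable.fst)), fun a => ?_⟩
  simp only [List.all_eq_true, List.any_eq_true, List.mem_range, h]
  constructor
  · intro H
    choose! g hg using H
    refine ⟨(Finset.range (M a)).sup g + 1, fun i hi => ⟨g i, ?_, hg i hi⟩⟩
    exact Nat.lt_succ_of_le (Finset.le_sup (f := g) (Finset.mem_range.2 hi))
  · rintro ⟨N, hN⟩ i hi
    obtain ⟨n, -, hn⟩ := hN i hi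
    exact ⟨n, hn⟩

theorem Sig.unif {R : α × β → Prop} (h : Sig R) (b₀ : β) (ht : ∀ a, ∃ b, R (a, b)) :
    ∃ φ : α → β, Computable φ ∧ ∀ a, R (a, φ a) := by
  obtain ⟨B, hB, h⟩ := h
  have hex : ∀ a, ∃ n, srch B (a, n) = true := fun a => by
    obtain ⟨b, hb⟩ := ht a
    obtain ⟨n, hn⟩ := (h _).1 hb
    exact ⟨Nat.pair (Encodable.encode b) n, srch_iff.2 ⟨b, by simp, by simpa using hn⟩⟩
  have hf := CFP.find (p := fun a n => srch B (a, n)) (cp_srch hB) hex
  refine ⟨fun a => (Encodable.decode (Nat.find (hex a)).unpair.1).getD b₀,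
    CFP.optGetD (Computable.decode.comp (CFP.fst (CFP.unpair hf))) (CFP.const _), fun a => ?_⟩
  obtain ⟨b, hb, hb'⟩ := srch_iff.1 (Nat.find_spec (hex a))
  simp only [hb, Option.getD_some]
  exact (h _).2 ⟨_, hb'⟩

end Pool.Agent.P.MP_406085_lc.Eff
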