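import Pool.Agent.P.MP_406085_lc.Final
import Pool.Agent.P.MP_406085_lc.Eff.Sig
import Pool.Agent.P.MP_406085_lc.Eff.Pol

/-!
Equality at all times is semidecidable, by the Hilbert basis theorem.
-/

namespace Pool.Agent.P.MP_406085_lc.Eff

open MvPolynomial Pool.Agent.Lib.Helper43

section

variable {K K' : Type} [CommRing K] [CommRing K']

/-- The multiplicative coordinate of a word. -/
def aY (y : ℕ → K) (u : List ℕ) : K := (u.map y).prod

/-- The additive coordinate of a word. -/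
def aX (x y : ℕ → K) (u : List ℕ) : K := u.foldr (fun a r => x a + y a * r) 0

theorem aX_cons (x y : ℕ → K) (a : ℕ) (u : List ℕ) : aX x y (a :: u) = x a + y a * aX x y u := rfl

theorem aX_append (x y : ℕ → K) (u v : List ℕ) :
    aX x y (u ++ v) = aX x y u + aY y u * aX x y v := by
  induction u with
  | nil => simp [aX, aY]
  | cons a u ih =>
    rw [List.cons_append, aX_cons, aX_cons, ih, aY, aY, List.map_cons, List.prod_cons]
    ring

theorem aX_flatMap (x y : ℕ → K) (G : ℕ → List ℕ) (u : List ℕ) :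
    aX x y (u.flatMap G) = aX (fun a => aX x y (G a)) (fun a => aY y (G a)) u := by
  induction u with
  | nil => rfl
  | cons a u ih => rw [List.flatMap_cons, aX_append, ih, aX_cons]

theorem map_aX (φ : K →+* K') (x y : ℕ → K) (x' y' : ℕ → K') (u : List ℕ)
    (h : ∀ a ∈ u, φ (x a) = x' a ∧ φ (y a) = y' a) : φ (aX x y u) = aX x' y' u := by
  induction u with
  | nil => exact map_zero φ
  | cons a u ih =>
    rw [aX_cons, aX_cons, map_add, map_mul, ih fun b hb => h b (List.mem_cons_of_mem _ hb),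
      (h a List.mem_cons_self).1, (h a List.mem_cons_self).2]

end

/-- An injective numerical code of words. -/
def num (u : List ℕ) : ℤ := aX (fun a => 2 ^ a) (fun a => 2 ^ (a + 1)) u

theorem num_cons (a : ℕ) (u : List ℕ) : num (a :: u) = 2 ^ a * (1 + 2 * num u) := by
  rw [num, aX_cons, num]
  ring

theorem two_pow_odd : ∀ (a b : ℕ) (s t : ℤ), 2 ^ a * (1 + 2 * s) = 2 ^ b * (1 + 2 * t) →
    a = b ∧ s = t
  | 0, 0, s, t, h => ⟨rfl, by omega⟩
  | 0, b + 1, s, t, h => by
    rw [pow_succ, mul_right_comm] at h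
    omega
  | a + 1, 0, s, t, h => by
    rw [pow_succ, mul_right_comm] at h
    omega
  | a + 1, b + 1, s, t, h => by
    rw [pow_succ, pow_succ, mul_right_comm, mul_right_comm (2 ^ b)] at h
    obtain ⟨h1, h2⟩ := two_pow_odd a b s t (by omega)
    exact ⟨by omega, h2⟩

theorem num_inj : ∀ u v : List ℕ, num u = num v → u = v
  | [], [], _ => rfl
  | [], b :: v, h => by
    rw [num_cons] at h
    exact absurd h.symm (mul_ne_zero (by positivity) (by omega))
  | a :: u, [], h => by
    rw [num_cons] at h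
    exact absurd h (mul_ne_zero (by positivity) (by omega))
  | a :: u, b :: v, h => by
    rw [num_cons, num_cons] at h
    obtain ⟨h1, h2⟩ := two_pow_odd _ _ _ _ h
    rw [h1, num_inj u v h2]

/-- The generic difference of the two images of a word. -/
noncomputable def dif (u : List ℕ) : MvPolynomial ℕ ℤ :=
  aX (fun a => X (4 * a)) (fun a => X (4 * a + 1)) u -
    aX (fun a => X (4 * a + 2)) (fun a => X (4 * a + 3)) u

/-- The point given by two morphisms. -/
def pt (G F : ℕ → List ℕ) (v : ℕ) : ℤ :=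
  if v % 4 = 0 then num (G (v / 4)) else if v % 4 = 1 then aY (fun a => 2 ^ (a + 1)) (G (v / 4))
  else if v % 4 = 2 then num (F (v / 4)) else aY (fun a => 2 ^ (a + 1)) (F (v / 4))

theorem eval_dif (G F : ℕ → List ℕ) (u : List ℕ) :
    eval (pt G F) (dif u) = num (u.flatMap G) - num (u.flatMap F) := by
  rw [dif, map_sub, num, num, aX_flatMap, aX_flatMap]
  congr 1 <;> refine map_aX _ _ _ _ _ _ fun a _ => ⟨?_, ?_⟩ <;> rw [eval_X, pt]
  · rw [if_pos (by omega), show 4 * a / 4 = a by omega]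
    rfl
  · rw [if_neg (by omega), if_pos (by omega), show (4 * a + 1) / 4 = a by omega]
  · rw [if_neg (by omega), if_neg (by omega), if_pos (by omega), show (4 * a + 2) / 4 = a by omega]
    rfl
  · rw [if_neg (by omega), if_neg (by omega), if_neg (by omega), show (4 * a + 3) / 4 = a by omega]

/-- The `n`-th word of the sequence. -/
def wd (p : Inst) (n : ℕ) : List ℕ := (mor p.2.1)^[n] p.1

theorem mor_iter (g h : List (List ℕ)) (t : ℕ) (u : List ℕ) :
    mor g ((mor h)^[t] u) = u.flatMap fun a => mor g ((mor h)^[t] [a]) := by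
  have := flatMap_iterate (fun a => h.getD a []) t u
  change (mor h)^[t] u = u.flatMap fun a => (mor h)^[t] [a] at this
  rw [this, mor, List.flatMap_assoc]
  rfl

theorem all_of_rel (p : Inst) (N : ℕ) (c : ℕ → MvPolynomial ℕ ℤ)
    (h : dif (wd p N) = ∑ i ∈ Finset.range N, c i * dif (wd p i)) (h0 : ∀ i < N, Eqn p i) (n : ℕ) :
    Eqn p n := by
  induction n using Nat.strong_induction_on with
  | _ n ih =>
    by_cases hn : n < N
    · exact h0 n hn
    obtain ⟨t, rfl⟩ : ∃ t, n = t + N := ⟨n - N, by omega⟩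
    have key : ∀ i, eval (pt (fun a => mor p.2.2.1 ((mor p.2.1)^[t] [a]))
        (fun a => mor p.2.2.2 ((mor p.2.1)^[t] [a]))) (dif (wd p i)) = 0 ↔ Eqn p (t + i) := by
      intro i
      rw [eval_dif, ← mor_iter, ← mor_iter, sub_eq_zero, wd, ← Function.iterate_add_apply]
      exact ⟨num_inj _ _, congrArg num⟩
    rw [← key, h, map_sum]
    refine Finset.sum_eq_zero fun i hi => ?_
    rw [map_mul, (key i).2 (ih _ (by have := Finset.mem_range.1 hi; omega)), mul_zero]

theorem exists_rel (p : Inst) : ∃ (N : ℕ) (c : ℕ → MvPolynomial ℕ ℤ),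
    dif (wd p N) = ∑ i ∈ Finset.range N, c i * dif (wd p i) := by
  obtain ⟨s, hs⟩ := CertE.exists_bound (p.1 ++ p.2.1.flatten)
  have hlt := CertE.iter_lt (h := p.2.1) (w := p.1) (fun a ha => hs a (by simp [ha]))
    fun a ha => hs a (by simp [ha])
  let ρ : MvPolynomial ℕ ℤ →ₐ[ℤ] MvPolynomial (Fin (4 * (s + 1))) ℤ :=
    aeval fun v => if h : v < 4 * (s + 1) then X ⟨v, h⟩ else 0
  let ι : MvPolynomial (Fin (4 * (s + 1))) ℤ →ₐ[ℤ] MvPolynomial ℕ ℤ := rename Fin.val
  have hX : ∀ v < 4 * (s + 1), (ι.comp ρ).toRingHom (X v) = X v := fun v hv => by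
    simp [ι, ρ, hv]
  have hfix : ∀ n, ι (ρ (dif (wd p n))) = dif (wd p n) := fun n => by
    change (ι.comp ρ).toRingHom (dif (wd p n)) = _
    rw [dif, map_sub]
    congr 1 <;> refine map_aX _ _ _ _ _ _ fun a ha => ?_ <;>
      exact ⟨hX _ (by have := hlt n a ha; omega), hX _ (by have := hlt n a ha; omega)⟩
  let I : ℕ →o Ideal (MvPolynomial (Fin (4 * (s + 1))) ℤ) :=
    ⟨fun N => Ideal.span ((fun i => ρ (dif (wd p i))) '' (Finset.range N : Set ℕ)),
      fun a b hab => Ideal.span_mono (Set.image_mono (by simpa using Set.Iio_subset_Iio hab))⟩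
  obtain ⟨N, hN⟩ := monotone_stabilizes_iff_noetherian.2 inferInstance I
  have h1 : ρ (dif (wd p N)) ∈ I N := by
    rw [hN (N + 1) (by omega)]
    exact Ideal.subset_span ⟨N, by simp, rfl⟩
  obtain ⟨c, hc⟩ := (Submodule.mem_span_image_finset_iff_exists_fun' _).1 h1
  refine ⟨N, fun i => ι (c i), ?_⟩
  rw [← hfix N, ← hc, map_sum]
  exact Finset.sum_congr rfl fun i _ => by rw [smul_eq_mul, map_mul, hfix]

def pX (e : ℕ) (u : List ℕ) : PL :=
  u.foldr (fun a r => (1, [4 * a + e]) :: pmul [(1, [4 * a + e + 1])] r) []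

theorem ev_pX (e : ℕ) (u : List ℕ) :
    ev (pX e u) = aX (fun a => X (4 * a + e)) (fun a => X (4 * a + e + 1)) u := by
  induction u with
  | nil => rfl
  | cons a u ih =>
    have : pX e (a :: u) = [(1, [4 * a + e])] ++ pmul [(1, [4 * a + e + 1])] (pX e u) := rfl
    rw [this, ev_append, ev_pmul, ev_var, ev_var, ih, aX_cons]

def pD (u : List ℕ) : PL := pX 0 u ++ pneg (pX 2 u)

theorem ev_pD (u : List ℕ) : ev (pD u) = dif u := by
  rw [pD, ev_append, ev_pneg, ev_pX, ev_pX, dif, sub_eq_add_neg]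
  rfl

/-- The relation to be tested. -/
def rel (p : Inst) (N : ℕ) (cs : List PL) : PL :=
  pD (wd p N) ++ pneg ((List.range N).flatMap fun i => pmul (cs.getD i []) (pD (wd p i)))

theorem ev_rel (p : Inst) (N : ℕ) (cs : List PL) : ev (rel p N cs) = 0 ↔
    dif (wd p N) = ∑ i ∈ Finset.range N, ev (cs.getD i []) * dif (wd p i) := by
  rw [rel, ev_append, ev_pneg, ev_pD, ev_flatMap, ← sub_eq_add_neg, sub_eq_zero]
  simp only [ev_pmul, ev_pD]
  rfl

attribute [local irreducible] pmul pneg mor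

theorem cp_pX0 : Computable fun x : ℕ × List ℕ => pX x.1 x.2 := by
  unfold pX
  refine CZ.foldr (h := fun (x : ℕ × List ℕ) a r =>
    ((1 : ℤ), [4 * a + x.1]) :: pmul [(1, [4 * a + x.1 + 1])] r) ?_ (CFP.const _) (by fun_prop)
  have h0 : Computable fun y : (ℕ × List ℕ) × ℕ × PL => 4 * y.2.1 + y.1.1 := by fun_prop
  have h1 : Computable fun y : (ℕ × List ℕ) × ℕ × PL => ((1 : ℤ), [4 * y.2.1 + y.1.1]) :=
    CFP.prodMk (CFP.const _) (CFP.cons h0 (CFP.const _))
  have h2 : Computable fun y : (ℕ × List ℕ) × ℕ × PL =>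
      [((1 : ℤ), [4 * y.2.1 + y.1.1 + 1])] :=
    CFP.cons (CFP.prodMk (CFP.const _) (CFP.cons (CFP.add h0 (CFP.const 1)) (CFP.const _)))
      (CFP.const _)
  have h3 : Computable fun y : (ℕ × List ℕ) × ℕ × PL => y.2.2 := by fun_prop
  exact CFP.cons h1 (cp_pmul h2 h3)

attribute [local irreducible] pX

theorem cp_pX (e : ℕ) : Computable (pX e) :=
  Computable.comp (g := fun u : List ℕ => (e, u)) cp_pX0 ((CFP.const e).pair CFP.id)

theorem cp_pD0 : Computable pD := by
  unfold pD
  exact CFP.append (cp_pX 0) (cp_pneg (cp_pX 2))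

theorem cp_wd0 : Computable fun x : Inst × ℕ => wd x.1 x.2 :=
  CZ.iterate (h := fun (x : Inst × ℕ) u => mor x.1.2.1 u) (by fun_prop) (by fun_prop)
    (cp_mor (by fun_prop) (by fun_prop))

attribute [local irreducible] pD wd

theorem cp_rel0 : Computable fun x : Inst × ℕ × List PL => rel x.1 x.2.1 x.2.2 := by
  have h : Computable fun x : Inst × ℕ => pD (wd x.1 x.2) := cp_pD0.comp cp_wd0
  refine CFP.append (h.comp (g := fun x : Inst × ℕ × List PL => (x.1, x.2.1)) (by fun_prop))
    (cp_pneg (CFP.flatMap (g := fun (x : Inst × ℕ × List PL) i =>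
      pmul (x.2.2.getD i []) (pD (wd x.1 i))) ?_ (by fun_prop)))
  exact cp_pmul (CFP.listGetD (by fun_prop) (by fun_prop) (CFP.const _))
    (h.comp (g := fun y : (Inst × ℕ × List PL) × ℕ => (y.1.1, y.2)) (by fun_prop))

theorem sig_eqn : Sig fun x : Inst × ℕ => Eqn x.1 x.2 := by
  obtain ⟨A, hA, hA'⟩ := computable_eqn
  exact (sig_bool hA).congr fun x => (hA' x.1 x.2).symm

theorem sig_all : Sig fun p : Inst => ∀ n, Eqn p n := by
  have h1 : Sig fun x : Inst × ℕ × List PL => pz (rel x.1 x.2.1 x.2.2) = true :=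
    sig_bool (cp_pz0.comp cp_rel0)
  have h2 : Sig fun x : Inst × ℕ × List PL => ∀ i < x.2.1, Eqn x.1 i :=
    Sig.ball (R := fun y : (Inst × ℕ × List PL) × ℕ => Eqn y.1.1 y.2)
      (sig_eqn.comp (f := fun y : (Inst × ℕ × List PL) × ℕ => (y.1.1, y.2)) (by fun_prop))
      (by fun_prop)
  refine (h1.and h2).ex.congr fun p => ⟨fun h => ?_, ?_⟩
  · obtain ⟨N, c, hc⟩ := exists_rel p
    choose l hl using fun i => ev_surj (c i)
    refine ⟨(N, (List.range N).map l), (pz_iff _).2 ((ev_rel _ _ _).2 ?_), fun i _ => h i⟩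
    rw [hc]
    refine Finset.sum_congr rfl fun i hi => ?_
    rw [← hl i]
    simp [List.getD_eq_getElem?_getD, Finset.mem_range.1 hi]
  · rintro ⟨⟨N, cs⟩, h1, h2⟩
    exact all_of_rel p N _ ((ev_rel _ _ _).1 ((pz_iff _).1 h1)) h2

end Pool.Agent.P.MP_406085_lc.Eff
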