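import Pool.Agent.P.MP_406085_lc.Final
import Pool.Agent.P.MP_406085_lc.Sml
import Pool.Agent.P.MP_406085_lc.Eff.Sig

/-!
A checkable period for the zero set of an integer linear recurrence sequence.
-/

namespace Pool.Agent.P.MP_406085_lc.Eff

open Polynomial Pool.Agent.Lib.Helper43

theorem hansel_card (p : ℕ) [Fact p.Prime] (d : ℕ → ℤ) (b : ℕ → ℤ)
    (hb : ∀ n, b n = ∑ k ∈ Finset.range (n + 1), ((p : ℤ) ^ 2) ^ k * n.choose k * d k)
    (Z : Finset ℕ) (hZ : ∀ z ∈ Z, b z = 0) (q : ℕ) (hq : b q ≠ 0) : Z.card ≤ (b q).natAbs := by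
  have hp : (1 : ℝ) < p := by exact_mod_cast (Fact.out : p.Prime).one_lt
  have key : ‖(b q : ℚ_[p])‖ ≤ ((p : ℝ)⁻¹) ^ Z.card := by
    obtain ⟨n, hn⟩ := (insert q Z).exists_le
    let R : ℚ_[p][X] := ∑ k ∈ Finset.range (n + 1),
      C ((d k : ℚ_[p]) * (p : ℚ_[p]) ^ k * ((p : ℚ_[p]) ^ k / k.factorial)) * descPochhammer ℚ_[p] k
    have hR : ∀ t : ℕ, t ≤ n → R.eval (t : ℚ_[p]) = b t := by
      intro t ht
      rw [hb, eval_finsetSum, Int.cast_sum]
      symm
      refine Finset.sum_subset_zero_on_sdiff (Finset.range_subset_range.mpr (by omega))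
        (fun k hk => ?_) fun k _ => ?_
      · simp only [Finset.mem_sdiff, Finset.mem_range] at hk
        rw [eval_mul, descPochhammer_eval_eq_descFactorial,
          Nat.descFactorial_eq_zero_iff_lt.mpr (by omega), Nat.cast_zero, mul_zero]
      · have hk : (k.factorial : ℚ_[p]) ≠ 0 := by exact_mod_cast k.factorial_ne_zero
        rw [eval_mul, eval_C, descPochhammer_eval_eq_descFactorial,
          Nat.descFactorial_eq_factorial_mul_choose]
        push_cast
        field_simp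
        ring
    rw [← hR q (hn q (by simp))]
    refine Sml.eval_le (by positivity) Z R (fun z hz => ?_) (fun i hi => ?_) q
    · rw [hR z (hn z (by simp [hz])), hZ z hz, Int.cast_zero]
    · rw [finsetSum_coeff]
      refine IsUltrametricDist.norm_sum_le_of_forall_le_of_nonneg (by positivity) fun k _ => ?_
      rw [coeff_C_mul]
      by_cases hk : k < i
      · rw [coeff_eq_zero_of_natDegree_lt (by rwa [descPochhammer_natDegree]), mul_zero, norm_zero]
        positivity
      have h1 : ‖(descPochhammer ℚ_[p] k).coeff i‖ ≤ 1 := by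
        rw [← descPochhammer_map (Int.castRingHom ℚ_[p]), coeff_map]
        exact Padic.norm_int_le_one _
      have h2 : ‖(p : ℚ_[p]) ^ k‖ ≤ ((p : ℝ)⁻¹) ^ Z.card := by
        rw [norm_pow, Padic.norm_p]
        exact pow_le_pow_of_le_one (by positivity) (inv_le_one_of_one_le₀ hp.le) (by omega)
      rw [norm_mul, norm_mul, norm_mul]
      calc _ ≤ 1 * ((p : ℝ)⁻¹) ^ Z.card * 1 * 1 := by
            gcongr
            exacts [Padic.norm_int_le_one _, Sml.norm_div_le k]
        _ = _ := by ring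
  rw [inv_pow, ← zpow_natCast, ← zpow_neg, Padic.norm_int_le_pow_iff_dvd] at key
  have h1 := Nat.le_of_dvd (Int.natAbs_pos.2 hq) (Int.natCast_dvd.1 (by exact_mod_cast key))
  exact (Nat.lt_pow_self (Fact.out : p.Prime).one_lt).le.trans h1

def mpow (m : ℕ) (A : Mat) (n : ℕ) : Mat := (mm m A)^[n] (idm m)

theorem toM_mpow (m : ℕ) (A : Mat) (n : ℕ) : toM m (mpow m A n) = toM m A ^ n := by
  induction n with
  | zero => exact toM_idm m
  | succ n ih => rw [mpow, Function.iterate_succ_apply', toM_mm, ← mpow, ih, pow_succ']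

def lin (m r : ℕ) (C : Mat) : Mat := (List.range m).map fun i => (List.range m).map fun j =>
  (r : ℤ) * (r : ℤ) * ent C i j + ent (idm m) i j

theorem toM_lin (m r : ℕ) (C : Mat) : toM m (lin m r C) = ((r : ℤ) ^ 2) • toM m C + 1 := by
  ext i j
  rw [← toM_idm, Matrix.add_apply, Matrix.smul_apply, smul_eq_mul, sq]
  exact snd_ent_range m (fun i j => (r : ℤ) * (r : ℤ) * ent C i j + ent (idm m) i j) i.2 j.2

/-- From `s` on, the classes modulo `M` are analytic. -/
def An (q : SkI) (M s : ℕ) : Prop := ∃ x : ℕ × ℕ × Mat, q.2.1.length ≤ x.1 ∧ q.2.2.length ≤ x.1 ∧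
  2 ≤ x.2.1 ∧ mm x.1 (mpow x.1 q.2.1 s) (mpow x.1 q.2.1 M) =
    mm x.1 (mpow x.1 q.2.1 s) (lin x.1 x.2.1 x.2.2)

theorem An.card {q : SkI} {M s a : ℕ} (h : An q M s) (ha : s ≤ a) (Z : Finset ℕ)
    (hZ : ∀ z ∈ Z, val q (a + M * z) = 0) (j : ℕ) (hj : val q (a + M * j) ≠ 0) :
    Z.card ≤ (val q (a + M * j)).natAbs := by
  obtain ⟨⟨m, r, C⟩, h1, h2, h3, h4⟩ := h
  rw [mm_eq_iff, toM_mpow, toM_mpow, toM_lin] at h4
  dsimp only at h1 h2 h3 h4
  obtain ⟨p, hp, t, rfl⟩ := Nat.exists_prime_and_dvd (show r ≠ 1 by omega)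
  have := Fact.mk hp
  set A := toM m q.2.1 with hA
  set D := (t : ℤ) ^ 2 • toM m C with hD
  have h5 : A ^ s * A ^ M = A ^ s * (((p : ℤ) ^ 2) • D + 1) := by
    rw [h4, hD, smul_smul, Nat.cast_mul, mul_pow]
  have h6 : ∀ n, A ^ (s + M * n) = A ^ s * (((p : ℤ) ^ 2) • D + 1) ^ n := by
    intro n
    induction n with
    | zero => simp
    | succ n ih =>
      rw [show s + M * (n + 1) = M + (s + M * n) by ring, pow_add, ih, ← mul_assoc, ← pow_add,
        add_comm M s, pow_add, h5, mul_assoc, ← pow_succ']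
  obtain ⟨e, rfl⟩ := Nat.exists_eq_add_of_le' ha
  refine hansel_card p (fun k => snd_vec m q.1 ⬝ᵥ (A ^ (e + s) * D ^ k).mulVec (snd_vec m q.2.2))
    (fun n => val q (e + s + M * n)) (fun n => ?_) Z hZ j hj
  rw [snd_val m q h1 h2, ← hA, add_assoc, pow_add, h6, ← mul_assoc, ← pow_add,
    (Commute.one_right _).add_pow, Finset.mul_sum, Matrix.sum_mulVec, dotProduct_sum]
  refine Finset.sum_congr rfl fun k _ => ?_
  rw [one_pow, mul_one, _root_.smul_pow, ← nsmul_eq_mul', mul_smul_comm, mul_smul_comm, Matrix.smul_mulVec,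
    Matrix.smul_mulVec, dotProduct_smul, dotProduct_smul, nsmul_eq_mul, smul_eq_mul]
  ring

theorem exists_an (q : SkI) : ∃ M s, 0 < M ∧ An q M s := by
  let m := q.2.1.length + q.2.2.length
  set A := toM m q.2.1 with hA
  have hP := A.charpoly_monic
  obtain ⟨Q, hQ, hX⟩ := exists_eq_pow_rootMultiplicity_mul_and_not_dvd A.charpoly hP.ne_zero 0
  generalize rootMultiplicity 0 A.charpoly = s at hQ
  rw [map_zero, sub_zero] at hQ hX
  have hm : Q.Monic := (monic_X_pow s).of_mul_monic_left (hQ ▸ hP)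
  have h0 : Q.coeff 0 ≠ 0 := fun h => hX (X_dvd_iff.mpr h)
  obtain ⟨p, hp, hpp⟩ := Nat.exists_infinite_primes ((Q.coeff 0).natAbs + 1)
  have hc : IsCoprime ((p ^ 2 : ℕ) : ℤ) (Q.coeff 0) := by
    rw [Int.isCoprime_iff_gcd_eq_one]
    refine Nat.Coprime.pow_left 2 ((Nat.Prime.coprime_iff_not_dvd hpp).mpr fun h => ?_)
    have := Nat.le_of_dvd (Int.natAbs_pos.mpr h0) h
    omega
  obtain ⟨N, hN, Y, Z, hY⟩ := Sml.exists_order hm (pow_pos hpp.pos 2) hc
  refine ⟨N, s, hN, (m, p, ofM (aeval A Y)), Nat.le_add_right _ _, Nat.le_add_left _ _,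
    hpp.two_le, ?_⟩
  rw [mm_eq_iff, toM_mpow, toM_mpow, toM_lin, toM_ofM, ← hA, ← sub_eq_zero, ← mul_sub]
  have h1 := congrArg (aeval A) hY
  have h2 := A.aeval_self_charpoly
  rw [hQ, map_mul, map_pow, aeval_X] at h2
  rw [map_sub, map_add, map_mul, map_mul, map_pow, aeval_X, aeval_C, map_one, ← Algebra.smul_def,
    Nat.cast_pow] at h1
  rw [h1, ← mul_assoc, h2, zero_mul]

attribute [local irreducible] mm ent idm

theorem cp_mpow0 : Computable fun x : ℕ × Mat × ℕ => mpow x.1 x.2.1 x.2.2 :=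
  CZ.iterate (h := fun (x : ℕ × Mat × ℕ) u => mm x.1 x.2.1 u) (by fun_prop)
    (cp_idm (by fun_prop)) (cp_mm (by fun_prop) (by fun_prop) (by fun_prop))

theorem cp_lin0 : Computable fun x : ℕ × ℕ × Mat => lin x.1 x.2.1 x.2.2 := by
  unfold lin
  refine CFP.map (CFP.map (g := fun (y : (ℕ × ℕ × Mat) × ℕ) j =>
    (y.1.2.1 : ℤ) * (y.1.2.1 : ℤ) * ent y.1.2.2 y.2 j + ent (idm y.1.1) y.2 j) ?_ (by fun_prop))
    (by fun_prop)
  exact CZ.zadd (CZ.zmul (by fun_prop) (cp_ent (by fun_prop) (by fun_prop) (by fun_prop)))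
    (cp_ent (cp_idm (by fun_prop)) (by fun_prop) (by fun_prop))

attribute [local irreducible] mpow lin

theorem cp_mpow {α : Type} [Primcodable α] {m n : α → ℕ} {A : α → Mat} (hm : Computable m)
    (hA : Computable A) (hn : Computable n) : Computable fun a => mpow (m a) (A a) (n a) :=
  Computable.comp (g := fun a => (m a, A a, n a)) cp_mpow0 (hm.pair (hA.pair hn))

theorem sig_an : Sig fun y : SkI × ℕ × ℕ => An y.1 y.2.1 y.2.2 := by
  refine Sig.ex (R := fun z : (SkI × ℕ × ℕ) × ℕ × ℕ × Mat => z.1.1.2.1.length ≤ z.2.1 ∧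
    z.1.1.2.2.length ≤ z.2.1 ∧ 2 ≤ z.2.2.1 ∧
    mm z.2.1 (mpow z.2.1 z.1.1.2.1 z.1.2.2) (mpow z.2.1 z.1.1.2.1 z.1.2.1) =
      mm z.2.1 (mpow z.2.1 z.1.1.2.1 z.1.2.2) (lin z.2.1 z.2.2.1 z.2.2.2)) ?_
  refine (sig_dec (CFP.decLe (inst := fun _ => inferInstance) (by fun_prop) (by fun_prop))).and
    ((sig_dec (CFP.decLe (inst := fun _ => inferInstance) (by fun_prop) (by fun_prop))).and
    ((sig_dec (CFP.decLe (inst := fun _ => inferInstance) (by fun_prop) (by fun_prop))).and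
    (sig_dec (CFP.decEq (inst := fun _ => inferInstance) ?_ ?_))))
  · exact cp_mm (by fun_prop) (cp_mpow (by fun_prop) (by fun_prop) (by fun_prop))
      (cp_mpow (by fun_prop) (by fun_prop) (by fun_prop))
  · have h : Computable fun z : (SkI × ℕ × ℕ) × ℕ × ℕ × Mat => lin z.2.1 z.2.2.1 z.2.2.2 :=
      cp_lin0.comp Computable.snd
    exact cp_mm (by fun_prop) (cp_mpow (by fun_prop) (by fun_prop) (by fun_prop)) h

theorem cp_dot0 : Computable fun x : List ℤ × List ℤ => dot x.1 x.2 := by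
  have h : Computable fun x : List ℤ × List ℤ =>
      ((List.range x.2.length).map fun i => x.1.getD i 0 * x.2.getD i 0).sum :=
    CZ.zsum (CFP.map (g := fun (x : List ℤ × List ℤ) i => x.1.getD i 0 * x.2.getD i 0)
      (CZ.zmul (CFP.listGetD (by fun_prop) (by fun_prop) (CFP.const _))
        (CFP.listGetD (by fun_prop) (by fun_prop) (CFP.const _))) (by fun_prop))
  exact h.of_eq fun x => (snd_dot_range x.1 x.2 _ le_rfl).symm

attribute [local irreducible] dot

theorem cp_dot {α : Type} [Primcodable α] {a b : α → List ℤ} (ha : Computable a)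
    (hb : Computable b) : Computable fun x => dot (a x) (b x) :=
  Computable.comp (g := fun x => (a x, b x)) cp_dot0 (ha.pair hb)

theorem cp_mulV0 : Computable fun x : Mat × List ℤ => mulV x.1 x.2 := by
  unfold mulV
  exact CFP.map (g := fun (x : Mat × List ℤ) a => dot a x.2) (cp_dot (by fun_prop) (by fun_prop))
    (by fun_prop)

attribute [local irreducible] mulV

theorem cp_mulV {α : Type} [Primcodable α] {A : α → Mat} {b : α → List ℤ} (hA : Computable A)
    (hb : Computable b) : Computable fun x => mulV (A x) (b x) :=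
  Computable.comp (g := fun x => (A x, b x)) cp_mulV0 (hA.pair hb)

theorem cp_val0 : Computable fun x : SkI × ℕ => val x.1 x.2 := by
  unfold val
  exact cp_dot (by fun_prop) (CZ.iterate (h := fun (x : SkI × ℕ) u => mulV x.1.2.1 u) (by fun_prop)
    (by fun_prop) (cp_mulV (by fun_prop) (by fun_prop)))

end Pool.Agent.P.MP_406085_lc.Eff
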