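import Pool.Agent.P.MP_406085_lc.Eff.All
import Pool.Agent.P.MP_406085_lc.Eff.An

/-!
The equality set is computable up to a finite set.
-/

namespace Pool.Agent.P.MP_406085_lc.Eff

open Pool.Agent.Lib.Helper43

theorem mor_append (h : List (List ℕ)) (u v : List ℕ) : mor h (u ++ v) = mor h u ++ mor h v :=
  List.flatMap_append

theorem getD_range (K : ℕ) (F : ℕ → List ℕ) (hF : ∀ c, K ≤ c → F c = []) (c : ℕ) :
    ((List.range K).map F).getD c [] = F c := by
  by_cases hc : c < K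
  · simp [List.getD_eq_getElem?_getD, hc]
  · rw [hF c (by omega), List.getD_eq_default _ _ (by simpa using hc)]

theorem mor_range (K : ℕ) (F : ℕ → List ℕ) (hF : ∀ c, K ≤ c → F c = []) (u : List ℕ) :
    mor ((List.range K).map F) u = u.flatMap F := by
  simp only [mor, getD_range K F hF]

/-- The instance that follows the progression `a + M j`. -/
def prog (p : Inst) (a M : ℕ) : Inst :=
  ((mor p.2.1)^[a] p.1, (List.range p.2.1.length).map fun c => (mor p.2.1)^[M] [c], p.2.2)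

theorem eqn_prog (p : Inst) (a : ℕ) {M : ℕ} (hM : 0 < M) (j : ℕ) :
    Eqn (prog p a M) j ↔ Eqn p (a + M * j) := by
  have h1 : mor ((List.range p.2.1.length).map fun c => (mor p.2.1)^[M] [c]) = (mor p.2.1)^[M] := by
    funext u
    rw [mor_range _ _ fun c hc => ?_]
    · exact (flatMap_iterate (fun a => p.2.1.getD a []) M u).symm
    · obtain ⟨M, rfl⟩ := Nat.exists_eq_add_of_le' hM
      have h2 : mor p.2.1 [c] = [] := by simp [mor, List.getElem?_eq_none hc]
      rw [Function.iterate_succ_apply, h2]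
      exact Function.iterate_fixed rfl M
  simp only [Eqn, prog, h1]
  rw [← Function.iterate_mul, ← Function.iterate_add_apply, add_comm]

/-- A certified period with its residues and a bound. -/
def Per (p : Inst) (y : ℕ × List ℕ × ℕ) : Prop := ∃ z : Cert × ℕ, 0 < y.1 ∧ y.1 * z.2 ≤ y.2.2 ∧
  An (ins p z.1) y.1 z.2 ∧
  ∀ i < y.1, (y.2.1.contains i = true ∧ ∀ j, Eqn (prog p (y.1 * z.2 + i) y.1) j) ∨
    (y.2.1.contains i = false ∧ ∃ j, val (ins p z.1) (y.1 * z.2 + i + y.1 * j) ≠ 0 ∧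
      (val (ins p z.1) (y.1 * z.2 + i + y.1 * j)).natAbs ≤ y.2.2)

theorem exists_finset {X : Set ℕ} {B : ℕ} (h : ∀ Z : Finset ℕ, (∀ z ∈ Z, z ∈ X) → Z.card ≤ B) :
    ∃ T : Finset ℕ, T.card ≤ B ∧ ∀ z ∈ X, z ∈ T := by
  have hf : X.Finite := by
    by_contra hc
    obtain ⟨Z, hZ, hc⟩ := Set.Infinite.exists_subset_card_eq hc (B + 1)
    have := h Z fun z hz => hZ hz
    omega
  exact ⟨hf.toFinset, h _ fun z hz => hf.mem_toFinset.1 hz, fun z hz => hf.mem_toFinset.2 hz⟩

theorem Per.sound {p : Inst} {y : ℕ × List ℕ × ℕ} (h : Per p y) :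
    0 < y.1 ∧ {n | ¬ (Eqn p n ↔ n % y.1 ∈ y.2.1)}.encard ≤ (y.2.2 + y.1 * y.2.2 : ℕ) := by
  obtain ⟨M, L, B⟩ := y
  obtain ⟨⟨k, s⟩, hM, hB, hA, h⟩ := h
  dsimp only at hM hB hA h ⊢
  have key : ∀ i < M, ∃ T : Finset ℕ, T.card ≤ B ∧
      ∀ j, ¬ (Eqn p (M * s + i + M * j) ↔ i ∈ L) → j ∈ T := by
    intro i hi
    rcases h i hi with ⟨h1, h2⟩ | ⟨h1, j, hj, hjB⟩
    · exact ⟨∅, by simp, fun j hj =>
        absurd (iff_of_true ((eqn_prog p _ hM j).1 (h2 j)) (by simpa using h1)) hj⟩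
    · obtain ⟨T, hT, hT'⟩ := exists_finset (X := {j | val (ins p k) (M * s + i + M * j) = 0})
        fun Z hZ => (hA.card ((Nat.le_mul_of_pos_left s hM).trans (Nat.le_add_right _ _)) Z hZ j
          hj).trans hjB
      refine ⟨T, hT, fun j hj => hT' j (ins_sound p k (by_contra fun e => hj ?_))⟩
      exact iff_of_false e (by simpa using h1)
  choose! T hT hT' using key
  refine ⟨hM, ?_⟩
  have hsub : {n | ¬ (Eqn p n ↔ n % M ∈ L)} ⊆ (Finset.range (M * s) ∪
      (Finset.range M).biUnion fun i => (T i).image fun j => M * s + i + M * j : Finset ℕ) := by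
    intro n hn
    rw [Finset.mem_coe, Finset.mem_union]
    refine (lt_or_ge n (M * s)).imp Finset.mem_range.2 fun hge => ?_
    have h1 := Nat.mod_lt n hM
    have h2 : s ≤ n / M := (Nat.le_div_iff_mul_le hM).2 (by rwa [mul_comm])
    obtain ⟨j, hj⟩ : ∃ j, n / M = s + j := ⟨n / M - s, by omega⟩
    have h4 := Nat.div_add_mod n M
    rw [hj, mul_add] at h4
    have h5 : M * s + n % M + M * j = n := by omega
    exact Finset.mem_biUnion.2 ⟨n % M, Finset.mem_range.2 h1,
      Finset.mem_image.2 ⟨j, hT' _ h1 j (by rwa [h5]), h5⟩⟩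
  refine (Set.encard_le_encard hsub).trans ?_
  rw [Set.encard_coe_eq_coe_finsetCard, Nat.cast_le]
  refine (Finset.card_union_le _ _).trans (add_le_add (by rwa [Finset.card_range]) ?_)
  refine (Finset.card_biUnion_le_card_mul _ _ B fun i hi =>
    Finset.card_image_le.trans (hT i (Finset.mem_range.1 hi))).trans ?_
  rw [Finset.card_range]

theorem exists_per (p : Inst) : ∃ y, Per p y := by
  classical
  obtain ⟨k, hk⟩ := exists_cert' p
  obtain ⟨M, s, hM, hA⟩ := exists_an (ins p k)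
  have key : ∀ i, ∃ j, ¬ (∀ j, Eqn p (M * s + i + M * j)) → ¬ Eqn p (M * s + i + M * j) := by
    intro i
    by_cases h : ∀ j, Eqn p (M * s + i + M * j)
    · exact ⟨0, fun hc => absurd h hc⟩
    · obtain ⟨j, hj⟩ := not_forall.1 h
      exact ⟨j, fun _ => hj⟩
  choose J hJ using key
  refine ⟨(M, (List.range M).filter fun i => ∀ j, Eqn p (M * s + i + M * j),
    M * s + (Finset.range M).sup fun i => (val (ins p k) (M * s + i + M * J i)).natAbs), (k, s), hM,
    Nat.le_add_right _ _, hA, fun i hi => ?_⟩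
  by_cases h : ∀ j, Eqn p (M * s + i + M * j)
  · exact Or.inl ⟨by simpa using ⟨hi, h⟩, fun j => (eqn_prog p _ hM j).2 (h j)⟩
  · refine Or.inr ⟨by simpa using fun _ => ⟨J i, hJ i h⟩, J i, fun e => hJ i h ((hk _).1 e), ?_⟩
    exact (Finset.le_sup (f := fun i => (val (ins p k) (M * s + i + M * J i)).natAbs)
      (Finset.mem_range.2 hi)).trans (Nat.le_add_left _ _)

attribute [local irreducible] mor ins val

theorem cp_prog0 : Computable fun x : Inst × ℕ × ℕ => prog x.1 x.2.1 x.2.2 := by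
  unfold prog
  refine CFP.prodMk ?_ (CFP.prodMk (CFP.map (g := fun (x : Inst × ℕ × ℕ) c =>
    (mor x.1.2.1)^[x.2.2] [c]) ?_ (by fun_prop)) (by fun_prop))
  · exact CZ.iterate (h := fun (x : Inst × ℕ × ℕ) u => mor x.1.2.1 u) (by fun_prop) (by fun_prop)
      (cp_mor (by fun_prop) (by fun_prop))
  · exact CZ.iterate (h := fun (y : (Inst × ℕ × ℕ) × ℕ) u => mor y.1.1.2.1 u) (by fun_prop)
      (CFP.cons (by fun_prop) (CFP.const _)) (cp_mor (by fun_prop) (by fun_prop))

attribute [local irreducible] prog An Eqn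

theorem cp_prog {α : Type} [Primcodable α] {p : α → Inst} {a b : α → ℕ} (hp : Computable p)
    (ha : Computable a) (hb : Computable b) : Computable fun x => prog (p x) (a x) (b x) :=
  Computable.comp (g := fun x => (p x, a x, b x)) cp_prog0 (hp.pair (ha.pair hb))

theorem cp_val {α : Type} [Primcodable α] {q : α → SkI} {a : α → ℕ} (hq : Computable q)
    (ha : Computable a) : Computable fun x => val (q x) (a x) :=
  Computable.comp (g := fun x => (q x, a x)) cp_val0 (hq.pair ha)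

/-- Instance, candidate and certificate. -/
abbrev Dat := (Inst × ℕ × List ℕ × ℕ) × Cert × ℕ

theorem cp_q : Computable fun x : Dat => ins x.1.1 x.2.1 :=
  Computable.comp (g := fun x : Dat => (x.1.1, x.2.1)) computable_ins (by fun_prop)

theorem cp_a : Computable fun x : Dat × ℕ => x.1.1.2.1 * x.1.2.2 + x.2 :=
  CFP.add (CFP.mul (by fun_prop) (by fun_prop)) Computable.snd

theorem sig_p1 : Sig fun x : Dat => 0 < x.1.2.1 :=
  sig_dec (CFP.decLt (inst := fun _ => inferInstance) (CFP.const _) (by fun_prop))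

theorem sig_p0 : Sig fun x : Dat => x.1.2.1 * x.2.2 ≤ x.1.2.2.2 :=
  sig_dec (CFP.decLe (inst := fun _ => inferInstance) (CFP.mul (by fun_prop) (by fun_prop))
    (by fun_prop))

theorem sig_p2 : Sig fun x : Dat => An (ins x.1.1 x.2.1) x.1.2.1 x.2.2 := by
  have h : Computable fun x : Dat => (x.1.2.1, x.2.2) := by fun_prop
  exact sig_an.comp (cp_q.pair h)

theorem cp_c : Computable fun x : Dat × ℕ => x.1.1.2.2.1.contains x.2 :=
  CFP.contains (by fun_prop) Computable.snd

theorem sig_p5 : Sig fun x : Dat × ℕ =>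
    ∀ j, Eqn (prog x.1.1.1 (x.1.1.2.1 * x.1.2.2 + x.2) x.1.1.2.1) j := by
  have h1 : Computable fun x : Dat × ℕ => x.1.1.1 := by fun_prop
  have h2 : Computable fun x : Dat × ℕ => x.1.1.2.1 := by fun_prop
  exact sig_all.comp (cp_prog h1 cp_a h2)

theorem sig_p6 : Sig fun x : Dat × ℕ => ∃ j, val (ins x.1.1.1 x.1.2.1)
    (x.1.1.2.1 * x.1.2.2 + x.2 + x.1.1.2.1 * j) ≠ 0 ∧ (val (ins x.1.1.1 x.1.2.1)
    (x.1.1.2.1 * x.1.2.2 + x.2 + x.1.1.2.1 * j)).natAbs ≤ x.1.1.2.2.2 := by
  have h2 : Computable fun x : (Dat × ℕ) × ℕ => x.1.1.1.2.1 := by fun_prop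
  have hb : Computable fun x : (Dat × ℕ) × ℕ =>
      x.1.1.1.2.1 * x.1.1.2.2 + x.1.2 + x.1.1.1.2.1 * x.2 :=
    CFP.add (cp_a.comp Computable.fst) (CFP.mul h2 Computable.snd)
  have hq : Computable fun x : (Dat × ℕ) × ℕ => ins x.1.1.1.1 x.1.1.2.1 :=
    cp_q.comp (Computable.fst.comp Computable.fst)
  have hv := cp_val hq hb
  have h6 : Sig fun x : (Dat × ℕ) × ℕ => val (ins x.1.1.1.1 x.1.1.2.1)
      (x.1.1.1.2.1 * x.1.1.2.2 + x.1.2 + x.1.1.1.2.1 * x.2) ≠ 0 :=
    (sig_bool (CFP.bne hv (CFP.const 0))).congr fun _ => by simp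
  have h3 : Computable fun x : (Dat × ℕ) × ℕ => x.1.1.1.2.2.2 := by fun_prop
  have h7 : Sig fun x : (Dat × ℕ) × ℕ => (val (ins x.1.1.1.1 x.1.1.2.1)
      (x.1.1.1.2.1 * x.1.1.2.2 + x.1.2 + x.1.1.1.2.1 * x.2)).natAbs ≤ x.1.1.1.2.2.2 :=
    (sig_dec (CFP.decLe (inst := fun _ => inferInstance)
      (CFP.add (CZ.ztoNat hv) (CZ.ztoNat (CZ.zneg hv))) h3)).congr fun _ => by omega
  exact (h6.and h7).ex

theorem sig_per : Sig fun x : Inst × ℕ × List ℕ × ℕ => Per x.1 x.2 := by
  have h3 : Sig fun x : Dat × ℕ => x.1.1.2.2.1.contains x.2 = true := sig_bool cp_c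
  have h4 : Sig fun x : Dat × ℕ => x.1.1.2.2.1.contains x.2 = false :=
    (sig_bool (CFP.not cp_c)).congr fun _ => by simp
  have hM : Computable fun x : Dat => x.1.2.1 := by fun_prop
  have h7 := ((h3.and sig_p5).or (h4.and sig_p6)).ball hM
  exact (sig_p1.and (sig_p0.and (sig_p2.and h7))).ex.congr fun _ => Iff.rfl

theorem one_sys : ∃ φ : Inst → ℕ × List ℕ × ℕ, Computable φ ∧ ∀ p, 0 < (φ p).1 ∧
    {n | ¬ (Eqn p n ↔ n % (φ p).1 ∈ (φ p).2.1)}.encard ≤ (φ p).2.2 := by
  obtain ⟨φ, h1, h2⟩ := sig_per.unif (0, [], 0) exists_per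
  have a1 := CFP.fst h1
  have a2 := CFP.snd (CFP.snd h1)
  exact ⟨fun p => ((φ p).1, (φ p).2.1, (φ p).2.2 + (φ p).1 * (φ p).2.2),
    a1.pair ((CFP.fst (CFP.snd h1)).pair (CFP.add a2 (CFP.mul a1 a2))), fun p => (h2 p).sound⟩

/-- A start word, an endomorphism and an output morphism. -/
abbrev Sys := List ℕ × List (List ℕ) × List (List ℕ)

/-- Two morphisms on the even and on the odd letters. -/
def mix (F G : List (List ℕ)) : List (List ℕ) :=
  (List.range (2 * (F.length + G.length))).map fun c =>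
    bif c.bodd then G.getD (c / 2) [] else F.getD (c / 2) []

def tag (e : ℕ) (u : List ℕ) : List ℕ := u.map fun a => 2 * a + e

theorem mor_mix (F G : List (List ℕ)) (u v : List ℕ) :
    mor (mix F G) (tag 0 u ++ tag 1 v) = mor F u ++ mor G v := by
  unfold mix
  rw [mor_range _ _ fun c hc => by
    rw [List.getD_eq_default _ _ (by omega), List.getD_eq_default _ _ (by omega), Bool.cond_self]]
  unfold mor tag
  rw [List.flatMap_append, List.flatMap_map, List.flatMap_map]
  congr 1 <;> refine List.flatMap_congr fun a _ => ?_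
  · simp
  · have : (2 * a + 1) / 2 = a := by omega
    simp [this]

theorem mor_tag (e : ℕ) (F : List (List ℕ)) (u : List ℕ) :
    mor (F.map (tag e)) u = tag e (mor F u) := by
  unfold mor
  rw [tag, List.map_flatMap]
  refine List.flatMap_congr fun a _ => ?_
  simp only [List.getD_eq_getElem?_getD, List.getElem?_map]
  cases F[a]? <;> rfl

/-- One system that simulates two. -/
def join (x : Sys × Sys) : Inst := (tag 0 x.1.1 ++ tag 1 x.2.1,
  mix (x.1.2.1.map (tag 0)) (x.2.2.1.map (tag 1)), mix x.1.2.2 [], mix [] x.2.2.2)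

theorem mor_nil (u : List ℕ) : mor [] u = [] := by
  unfold mor
  simp

theorem eqn_join (x : Sys × Sys) (n : ℕ) : Eqn (join x) n ↔
    mor x.1.2.2 ((mor x.1.2.1)^[n] x.1.1) = mor x.2.2.2 ((mor x.2.2.1)^[n] x.2.1) := by
  have h : (mor (mix (x.1.2.1.map (tag 0)) (x.2.2.1.map (tag 1))))^[n] (tag 0 x.1.1 ++ tag 1 x.2.1) =
      tag 0 ((mor x.1.2.1)^[n] x.1.1) ++ tag 1 ((mor x.2.2.1)^[n] x.2.1) := by
    induction n with
    | zero => rfl
    | succ n ih => simp only [Function.iterate_succ_apply', ih, mor_mix, mor_tag]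
  unfold Eqn join
  simp only [h, mor_mix, mor_nil, List.append_nil, List.nil_append]

theorem cp_mix0 : Computable fun x : List (List ℕ) × List (List ℕ) => mix x.1 x.2 := by
  unfold mix
  refine CFP.map (g := fun (x : List (List ℕ) × List (List ℕ)) (c : ℕ) =>
    bif c.bodd then x.2.getD (c / 2) [] else x.1.getD (c / 2) []) ?_
    (CFP.range (CFP.mul (CFP.const _) (CFP.add (by fun_prop) (by fun_prop))))
  exact CFP.cond (CFP.bodd Computable.snd)
    (CFP.listGetD (by fun_prop) (CFP.div Computable.snd (CFP.const _)) (CFP.const _))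
    (CFP.listGetD (by fun_prop) (CFP.div Computable.snd (CFP.const _)) (CFP.const _))

theorem cp_tag0 (e : ℕ) : Computable (tag e) := by
  unfold tag
  exact CFP.map (g := fun (_ : List ℕ) a => 2 * a + e)
    (CFP.add (CFP.mul (CFP.const _) Computable.snd) (CFP.const _)) CFP.id

attribute [local irreducible] mix tag

theorem cp_mix {α : Type} [Primcodable α] {a b : α → List (List ℕ)} (ha : Computable a)
    (hb : Computable b) : Computable fun x => mix (a x) (b x) :=
  Computable.comp (g := fun x => (a x, b x)) cp_mix0 (ha.pair hb)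

theorem cp_join : Computable join := by
  unfold join
  have h : ∀ e, Computable fun F : List (List ℕ) => F.map (tag e) := fun e =>
    CFP.map (g := fun (_ : List (List ℕ)) u => tag e u) ((cp_tag0 e).comp Computable.snd) CFP.id
  have a1 : Computable fun x : Sys × Sys => tag 0 x.1.1 := (cp_tag0 0).comp (by fun_prop)
  have a2 : Computable fun x : Sys × Sys => tag 1 x.2.1 := (cp_tag0 1).comp (by fun_prop)
  have a3 : Computable fun x : Sys × Sys => x.1.2.1.map (tag 0) := (h 0).comp (by fun_prop)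
  have a4 : Computable fun x : Sys × Sys => x.2.2.1.map (tag 1) := (h 1).comp (by fun_prop)
  exact CFP.prodMk (CFP.append a1 a2) (CFP.prodMk (cp_mix a3 a4)
    (CFP.prodMk (cp_mix (by fun_prop) (CFP.const _)) (cp_mix (CFP.const _) (by fun_prop))))

theorem two_sys : ∃ φ : Sys × Sys → ℕ × List ℕ × ℕ, Computable φ ∧ ∀ x, 0 < (φ x).1 ∧
    {n | ¬ (mor x.1.2.2 ((mor x.1.2.1)^[n] x.1.1) = mor x.2.2.2 ((mor x.2.2.1)^[n] x.2.1) ↔
      n % (φ x).1 ∈ (φ x).2.1)}.encard ≤ (φ x).2.2 := by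
  obtain ⟨φ, h1, h2⟩ := one_sys
  refine ⟨fun x => φ (join x), h1.comp cp_join, fun x => ?_⟩
  simpa only [eqn_join] using h2 (join x)

end Pool.Agent.P.MP_406085_lc.Eff
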